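import Pool.Agent.U307.NF.B

/-! Package L1 of the project NF: primes whose dilates are near a thin set force a major arc. -/

set_option autoImplicit false

namespace Pool.Agent.U307.NF

open Finset Filter Topology
open Pool.Agent.H807R2.Dav (ee norm_ee ee_add ee_int ee_zero ee_add_int)
open Pool.Agent.U237.NF.Lite
open ArithmeticFunction (vonMangoldt)

/-- a real representative -/
noncomputable def rep (v : UnitAddCircle) : ℝ := Function.surjInv (QuotientAddGroup.mk_surjective) v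

lemma coe_rep (v : UnitAddCircle) : ((rep v : ℝ) : UnitAddCircle) = v :=
  Function.surjInv_eq (QuotientAddGroup.mk_surjective) v

/-- a point near a thin set is near one of the centres -/
lemma near_centre {A : Set UnitAddCircle} {F : Finset UnitAddCircle} {x : ℝ}
    (hF : ∀ z ∈ A, ∃ y ∈ F, ‖z - y‖ ≤ 1 / x) {t : ℝ}
    (ht : ∃ z ∈ A, ‖((t : ℝ) : UnitAddCircle) - z‖ ≤ 1 / x) :
    ∃ v ∈ F, |t - rep v - round (t - rep v)| ≤ 2 / x := by
  obtain ⟨z, hz, h1⟩ := ht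
  obtain ⟨v, hv, h2⟩ := hF z hz
  refine ⟨v, hv, ?_⟩
  have h3 : ‖((t - rep v : ℝ) : UnitAddCircle)‖ ≤ 2 / x := by
    have h4 : ((t - rep v : ℝ) : UnitAddCircle) = (((t : ℝ) : UnitAddCircle) - z) + (z - v) := by
      rw [AddCircle.coe_sub, coe_rep]
      abel
    rw [h4]
    refine (norm_add_le _ _).trans ?_
    have : (2 : ℝ) / x = 1 / x + 1 / x := by ring
    rw [this]
    exact add_le_add h1 h2
  rwa [UnitAddCircle.norm_eq] at h3

/-- **L1** -/
theorem t_L1 (hE : S_E) (_hC : S_C) : S_L1 := by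
  intro η hη c hc
  obtain ⟨X, hX⟩ := Filter.eventually_atTop.1
    (hη.eventually (gt_mem_nhds (by positivity : (0 : ℝ) < c / 512)))
  set J : ℕ := max 1 ⌈X⌉₊ with hJ
  have hJ1 : 1 ≤ J := le_max_left _ _
  have hJ0 : (0 : ℝ) < J := by exact_mod_cast hJ1
  have hJ1' : (1 : ℝ) ≤ J := by exact_mod_cast hJ1
  have hxX : X ≤ 16 * (J : ℝ) := by
    have h1 : X ≤ (J : ℝ) := (Nat.le_ceil X).trans (by exact_mod_cast le_max_right _ _)
    linarith
  have hηx := hX (16 * (J : ℝ)) hxX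
  set c₂ : ℝ := 1 / (4 * J) with hc₂
  have hc₂0 : 0 < c₂ := by positivity
  obtain ⟨B, N0, hB⟩ := hE c₂ hc₂0
  obtain ⟨y1, hy12, hps⟩ := prime_sum_le c₂ hc₂0
  obtain ⟨y2, hy22, hPB⟩ := PB_card
  refine ⟨B * J, 1 / (16 * J), by positivity, max N0 (max y1 y2), ?_⟩
  intro y hy A hA W hWP hWc β hβ
  have hyN0 : N0 ≤ y := (le_max_left _ _).trans hy
  have hyy1 : y1 ≤ y := ((le_max_left _ _).trans (le_max_right _ _)).trans hy
  have hyy2 : y2 ≤ y := ((le_max_right _ _).trans (le_max_right _ _)).trans hy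
  have hy2 : 2 ≤ y := hy12.trans hyy1
  have hy0 : (0 : ℝ) < y := by exact_mod_cast (by omega : 0 < y)
  have hlog : 0 < Real.log y := Real.log_pos (by exact_mod_cast (by omega : 1 < y))
  have hyl : 0 < (y : ℝ) / Real.log y := div_pos hy0 hlog
  have hbig : ¬ ∀ m : ℕ, 1 ≤ m → m < J → ∀ N : ℕ, y ≤ N → N ≤ 2 * y →
      ‖∑ n ∈ Icc 1 N, ((vonMangoldt n : ℝ) : ℂ) * ee ((n : ℝ) * ((m : ℝ) * β))‖ ≤ c₂ * N := by
    intro hall
    have hD : ∀ m : ℕ, 1 ≤ m → m < J →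
        ‖∑ p ∈ PB y, ee ((m : ℝ) * ((p : ℝ) * β))‖ ≤ 4 * c₂ * (y / Real.log y) := by
      intro m hm hmJ
      have h1 := hps y hyy1 ((m : ℝ) * β) (hall m hm hmJ)
      have h2 : ∑ p ∈ PB y, ee ((m : ℝ) * ((p : ℝ) * β)) = ∑ p ∈ PB y, ee ((p : ℝ) * ((m : ℝ) * β)) :=
        Finset.sum_congr rfl fun p _ => by congr 1; ring
      rw [h2]
      exact h1
    have hx1 : (1 : ℝ) ≤ 16 * (J : ℝ) := by linarith
    obtain ⟨F, hFc, hF⟩ := hA (16 * (J : ℝ)) hx1
    have hlow : ∀ p ∈ W, (J : ℝ) ^ 2 / 4 ≤ ∑ v ∈ F, Kr J ((p : ℝ) * β - rep v) := by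
      intro p hp
      obtain ⟨v, hv, h1⟩ := near_centre hF (hβ p hp)
      have h2 : (J : ℝ) ^ 2 / 4 ≤ Kr J ((p : ℝ) * β - rep v) := by
        have h3 : (p : ℝ) * β - rep v = ((p : ℝ) * β - rep v - round ((p : ℝ) * β - rep v)) +
          ((round ((p : ℝ) * β - rep v) : ℤ) : ℝ) := by ring
        rw [h3, Kr_add_int]
        refine Kr_ge J hJ1 (h1.trans (le_of_eq ?_))
        field_simp
        norm_num
      exact h2.trans (Finset.single_le_sum (f := fun v => Kr J ((p : ℝ) * β - rep v))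
        (fun v _ => Kr_nonneg _ _) hv)
    have h1 : (W.card : ℝ) * ((J : ℝ) ^ 2 / 4) ≤ ∑ v ∈ F, (J * ((PB y).card : ℝ) +
        J ^ 2 * (4 * c₂ * (y / Real.log y))) := by
      calc (W.card : ℝ) * ((J : ℝ) ^ 2 / 4) = ∑ p ∈ W, (J : ℝ) ^ 2 / 4 := by
            rw [Finset.sum_const, nsmul_eq_mul]
        _ ≤ ∑ p ∈ W, ∑ v ∈ F, Kr J ((p : ℝ) * β - rep v) := Finset.sum_le_sum hlow
        _ ≤ ∑ p ∈ PB y, ∑ v ∈ F, Kr J ((p : ℝ) * β - rep v) :=
            Finset.sum_le_sum_of_subset_of_nonneg hWP fun _ _ _ =>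
              Finset.sum_nonneg fun _ _ => Kr_nonneg _ _
        _ = ∑ v ∈ F, ∑ p ∈ PB y, Kr J ((p : ℝ) * β - rep v) := Finset.sum_comm
        _ ≤ _ := Finset.sum_le_sum fun v _ => ker_sum (PB y) β (rep v) J _ (by positivity) hD
    rw [Finset.sum_const, nsmul_eq_mul] at h1
    have h2 := hPB y hyy2
    set L : ℝ := (y : ℝ) / Real.log y with hL
    have h3 : (J : ℝ) * ((PB y).card : ℝ) + J ^ 2 * (4 * c₂ * L) ≤ 3 * J * L := by
      have h4 : (J : ℝ) ^ 2 * (4 * c₂ * L) = J * L := by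
        rw [hc₂]
        field_simp
      rw [h4]
      nlinarith
    have h5 : (F.card : ℝ) * (3 * J * L) ≤ (c / 512 * (16 * J)) * (3 * J * L) := by
      refine mul_le_mul_of_nonneg_right (hFc.trans ?_) (by positivity)
      exact mul_le_mul_of_nonneg_right hηx.le (by positivity)
    have h6 : (W.card : ℝ) * ((J : ℝ) ^ 2 / 4) ≤ (c / 512 * (16 * J)) * (3 * J * L) :=
      h1.trans ((mul_le_mul_of_nonneg_left h3 (by positivity)).trans h5)
    have h7 : c * L * ((J : ℝ) ^ 2 / 4) ≤ (W.card : ℝ) * ((J : ℝ) ^ 2 / 4) := by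
      refine mul_le_mul_of_nonneg_right ?_ (by positivity)
      rw [hL, ← mul_div_assoc]
      exact hWc
    have h8 : 0 < c * L * (J : ℝ) ^ 2 := by positivity
    nlinarith
  push Not at hbig
  obtain ⟨m, hm, hmJ, N, hyN, hN2, hbig⟩ := hbig
  obtain ⟨b, hb1, hbB, a, ha⟩ := hB N (hyN0.trans hyN) ((m : ℝ) * β) hbig.le
  have hm0 : (0 : ℝ) < m := by exact_mod_cast hm
  have hb0 : (0 : ℝ) < b := by exact_mod_cast hb1
  have hN0' : (0 : ℝ) < N := by exact_mod_cast (by omega : 0 < N)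
  refine ⟨b * m, Nat.mul_pos hb1 hm, Nat.mul_le_mul hbB hmJ.le, a, ?_⟩
  have h1 : β - (a : ℝ) / ((b * m : ℕ) : ℝ) = ((m : ℝ) * β - a / b) / m := by
    push_cast
    field_simp
  rw [h1, abs_div, abs_of_pos hm0]
  have h2 : |(m : ℝ) * β - a / b| / m * y ≤ (B : ℝ) / N / m * y := by gcongr
  refine h2.trans ?_
  have h3 : (y : ℝ) ≤ N := by exact_mod_cast hyN
  have hm1 : (1 : ℝ) ≤ m := by exact_mod_cast hm
  have hB0 : (0 : ℝ) ≤ B := by positivity
  calc (B : ℝ) / N / m * y = B * (y / N) / m := by ring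
    _ ≤ B * 1 / 1 := by
        gcongr
        exact (div_le_one hN0').2 h3
    _ ≤ ((B * J : ℕ) : ℝ) := by
        push_cast
        nlinarith

end Pool.Agent.U307.NF
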