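import Pool.Agent.U307.NF.L1

/-! Package L2 of the project NF: counting primes in short intervals near a thin set. -/

set_option autoImplicit false

namespace Pool.Agent.U307.NF

open Finset Filter Topology
open Pool.Agent.U237.NF.Lite

/-- **L2** -/
theorem t_L2 : S_L2 := by
  intro η hη c hc B l hl
  set κ : ℝ := c * l / (64 * ((B : ℝ) + 1) * (B + 1)) with hκ
  have hB0 : (0 : ℝ) ≤ B := by positivity
  have hκ0 : 0 < κ := by positivity
  obtain ⟨X, hX⟩ := Filter.eventually_atTop.1 (hη.eventually (gt_mem_nhds hκ0))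
  set x : ℝ := max X (max 4 (8 / l)) with hx
  have hxX : X ≤ x := le_max_left _ _
  have hx4 : 4 ≤ x := (le_max_left _ _).trans (le_max_right _ _)
  have hxl : 8 / l ≤ x := (le_max_right _ _).trans (le_max_right _ _)
  have hx0 : 0 < x := by linarith
  have hηx := hX x hxX
  have hxl1 : 8 ≤ x * l := by
    rw [div_le_iff₀ hl] at hxl
    exact hxl
  have hxl0 : 0 < x * l := by linarith
  -- the length of the short intervals is `c₁ y`
  set c₁ : ℝ := 4 / (x * l) with hc₁
  have hc₁0 : 0 < c₁ := by positivity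
  have hc₁1 : c₁ ≤ 1 / 2 := by
    rw [hc₁, div_le_iff₀ hxl0]
    linarith
  obtain ⟨y1, hy12, hpc⟩ := prime_count c₁ hc₁0
  refine ⟨1 / x, by positivity, max y1 ⌈1 / c₁⌉₊, ?_⟩
  intro y hy A hA W hWP hWc β hβ b a hb1 hbB hd
  by_contra hcon
  push Not at hcon
  have hyy1 : y1 ≤ y := (le_max_left _ _).trans hy
  have hy2 : 2 ≤ y := hy12.trans hyy1
  have hy0 : (0 : ℝ) < y := by exact_mod_cast (by omega : 0 < y)
  have hy2' : (2 : ℝ) ≤ y := by exact_mod_cast hy2
  have hlog : 0 < Real.log y := Real.log_pos (by exact_mod_cast (by omega : 1 < y))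
  have hc₁y : 1 ≤ c₁ * y := by
    have h1 : 1 / c₁ ≤ (y : ℝ) := (Nat.le_ceil _).trans (by exact_mod_cast (le_max_right _ _).trans hy)
    rw [div_le_iff₀ hc₁0] at h1
    linarith
  set L : ℝ := (y : ℝ) / Real.log y with hL
  have hL0 : 0 < L := div_pos hy0 hlog
  set d : ℝ := β - a / b with hdd
  have hb0 : (0 : ℝ) < b := by exact_mod_cast hb1
  obtain ⟨F, hFc, hF⟩ := hA x (by linarith)
  have hnear : ∀ p ∈ W, ∃ v ∈ F, |(p : ℝ) * β - rep v - round ((p : ℝ) * β - rep v)| ≤ 2 / x :=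
    fun p hp => near_centre hF (hβ p hp)
  choose! v hvF hv using hnear
  let M : ℕ → ℤ := fun p => round ((p : ℝ) * β - rep (v p)) - ((p / b : ℕ) : ℤ) * a
  have hM : ∀ p ∈ W, |((p % b : ℕ) : ℝ) * (a / b) + p * d - rep (v p) - M p| ≤ 2 / x := by
    intro p hp
    have h1 := hv p hp
    have h2 : ((p % b : ℕ) : ℝ) * (a / b) + p * d - rep (v p) - M p =
        (p : ℝ) * β - rep (v p) - round ((p : ℝ) * β - rep (v p)) := by
      have h3 : (p : ℝ) = b * ((p / b : ℕ) : ℝ) + ((p % b : ℕ) : ℝ) := by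
        exact_mod_cast (Nat.div_add_mod p b).symm
      have h4 : (p : ℝ) * (a / b) = ((p % b : ℕ) : ℝ) * (a / b) + ((p / b : ℕ) : ℝ) * a := by
        calc (p : ℝ) * (a / b) = (b * ((p / b : ℕ) : ℝ) + ((p % b : ℕ) : ℝ)) * (a / b) := by rw [← h3]
          _ = _ := by field_simp; ring
      have h5 : (p : ℝ) * β = p * d + p * (a / b) := by rw [hdd]; ring
      simp only [M]
      rw [Int.cast_sub, Int.cast_mul, Int.cast_natCast]
      linear_combination (-1 : ℝ) * h5 - h4
    rw [h2]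
    exact h1
  let E : ℕ → UnitAddCircle → ℝ := fun r w => (r : ℝ) * (a / b) + y * d - rep w
  let φ : ℕ → ℕ × UnitAddCircle × ℤ := fun p => (p % b, v p, M p - ⌊E (p % b) (v p)⌋)
  have hWy : ∀ p ∈ W, y < p ∧ p ≤ 2 * y ∧ p.Prime := by
    intro p hp
    have := hWP hp
    unfold PB at this
    rw [Finset.mem_filter, Finset.mem_Ioc] at this
    exact ⟨this.1.1, this.1.2, this.2⟩
  have hmaps : ∀ p ∈ W, φ p ∈ range b ×ˢ F ×ˢ Icc (-(B : ℤ)) (B + 1) := by
    intro p hp
    rw [Finset.mem_product, Finset.mem_product, Finset.mem_Icc]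
    refine ⟨Finset.mem_range.2 (Nat.mod_lt _ hb1), hvF p hp, ?_⟩
    obtain ⟨hyp, hp2, -⟩ := hWy p hp
    have h1 := abs_le.1 (hM p hp)
    have h2 : 2 / x ≤ 1 / 2 := by
      rw [div_le_div_iff₀ hx0 two_pos]
      linarith
    have h3 : |((p : ℝ) - y) * d| ≤ B := by
      rw [abs_mul]
      have h4 : |(p : ℝ) - y| ≤ y := by
        have h5 : (y : ℝ) < p := by exact_mod_cast hyp
        have h6 : (p : ℝ) ≤ 2 * y := by exact_mod_cast hp2
        rw [abs_of_pos (by linarith)]
        linarith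
      calc |(p : ℝ) - y| * |d| ≤ y * |d| := by gcongr
        _ = |d| * y := mul_comm _ _
        _ ≤ B := hd
    have h3' := abs_le.1 h3
    have h7 : E (p % b) (v p) = ((p % b : ℕ) : ℝ) * (a / b) + p * d - rep (v p) - ((p : ℝ) - y) * d := by
      simp only [E]
      ring
    have h8 := Int.floor_le (E (p % b) (v p))
    have h9 := Int.lt_floor_add_one (E (p % b) (v p))
    constructor
    · have : (-(B : ℤ) : ℝ) - 1 < ((M p - ⌊E (p % b) (v p)⌋ : ℤ) : ℝ) := by
        push_cast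
        linarith [h1.2]
      have h10 : -(B : ℤ) - 1 < M p - ⌊E (p % b) (v p)⌋ := by exact_mod_cast this
      change -(B : ℤ) ≤ M p - ⌊E (p % b) (v p)⌋
      omega
    · have : ((M p - ⌊E (p % b) (v p)⌋ : ℤ) : ℝ) < (B : ℝ) + 2 := by
        push_cast
        linarith [h1.1]
      have h10 : M p - ⌊E (p % b) (v p)⌋ < (B : ℤ) + 2 := by exact_mod_cast this
      change M p - ⌊E (p % b) (v p)⌋ ≤ (B : ℤ) + 1
      omega
  have hfib : ∀ τ ∈ range b ×ˢ F ×ˢ Icc (-(B : ℤ)) (B + 1),
      ((W.filter (fun p => φ p = τ)).card : ℝ) ≤ 4 * c₁ * L := by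
    intro τ _
    rcases (W.filter (fun p => φ p = τ)).eq_empty_or_nonempty with he | hne
    · rw [he, Finset.card_empty, Nat.cast_zero]
      positivity
    set p₀ := (W.filter (fun p => φ p = τ)).min' hne with hp₀
    have hp₀m : p₀ ∈ W.filter (fun p => φ p = τ) := Finset.min'_mem _ _
    obtain ⟨hp₀W, hp₀φ⟩ := Finset.mem_filter.1 hp₀m
    obtain ⟨hyp, hp2, hpp⟩ := hWy p₀ hp₀W
    set k : ℕ := ⌊c₁ * y⌋₊ + 1 with hk
    have hk1 : c₁ * y ≤ k := by
      rw [hk]
      push_cast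
      exact (Nat.lt_floor_add_one _).le
    have hk2 : (k : ℝ) ≤ c₁ * y + 1 := by
      rw [hk]
      push_cast
      linarith [Nat.floor_le (by positivity : 0 ≤ c₁ * (y : ℝ))]
    have hk3 : (k : ℝ) ≤ y := by
      have : c₁ * y ≤ 1 / 2 * y := by gcongr
      linarith
    have hk4 : k ≤ y := by exact_mod_cast hk3
    have hsub : W.filter (fun p => φ p = τ) ⊆ (Ioc (p₀ - 1) (p₀ - 1 + k)).filter Nat.Prime := by
      intro p hp
      have hmin : p₀ ≤ p := Finset.min'_le _ _ hp
      obtain ⟨hpW, hpφ⟩ := Finset.mem_filter.1 hp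
      obtain ⟨-, -, hprime⟩ := hWy p hpW
      have h1 : φ p = φ p₀ := hpφ.trans hp₀φ.symm
      have h2 : p % b = p₀ % b := congrArg Prod.fst h1
      have h3 : v p = v p₀ := congrArg (fun z => z.2.1) h1
      have h4 : M p - ⌊E (p % b) (v p)⌋ = M p₀ - ⌊E (p₀ % b) (v p₀)⌋ := congrArg (fun z => z.2.2) h1
      have h5 : M p = M p₀ := by
        rw [h2, h3] at h4
        omega
      have h6 := hM p hpW
      have h7 := hM p₀ hp₀W
      rw [h2, h3, h5] at h6
      have h8 : ((p : ℝ) - p₀) * |d| ≤ 4 / x := by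
        have h9 : ((p : ℝ) - p₀) * d = (((p₀ % b : ℕ) : ℝ) * (a / b) + p * d - rep (v p₀) - M p₀) -
            (((p₀ % b : ℕ) : ℝ) * (a / b) + p₀ * d - rep (v p₀) - M p₀) := by ring
        have h10 : |((p : ℝ) - p₀) * d| ≤ 4 / x := by
          rw [h9]
          refine (abs_sub _ _).trans ?_
          have : (4 : ℝ) / x = 2 / x + 2 / x := by ring
          rw [this]
          exact add_le_add h6 h7
        rw [abs_mul, abs_of_nonneg (by
          have : (p₀ : ℝ) ≤ p := by exact_mod_cast hmin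
          linarith)] at h10
        exact h10
      have h11 : (p : ℝ) - p₀ ≤ c₁ * y := by
        have h12 : 0 ≤ (p : ℝ) - p₀ := by
          have : (p₀ : ℝ) ≤ p := by exact_mod_cast hmin
          linarith
        have h13 : ((p : ℝ) - p₀) * l ≤ 4 / x * y := by
          calc ((p : ℝ) - p₀) * l ≤ ((p : ℝ) - p₀) * (|d| * y) := by gcongr
            _ = ((p : ℝ) - p₀) * |d| * y := by ring
            _ ≤ 4 / x * y := by gcongr
        rw [hc₁]
        have h14 : 4 / (x * l) * (y : ℝ) = (4 / x * y) / l := by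
          field_simp
        rw [h14, le_div_iff₀ hl]
        exact h13
      have h15 : p - p₀ ≤ ⌊c₁ * y⌋₊ := by
        refine Nat.le_floor ?_
        rw [Nat.cast_sub hmin]
        exact h11
      rw [Finset.mem_filter, Finset.mem_Ioc]
      refine ⟨⟨by omega, by omega⟩, hprime⟩
    have h1 := hpc y hyy1 (p₀ - 1) k (by omega) (by omega) hk1 hk4
    calc ((W.filter (fun p => φ p = τ)).card : ℝ)
        ≤ (((Ioc (p₀ - 1) (p₀ - 1 + k)).filter Nat.Prime).card : ℝ) := by
          exact_mod_cast Finset.card_le_card hsub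
      _ ≤ 2 * (k / Real.log y) := h1
      _ ≤ 2 * ((2 * c₁ * y) / Real.log y) := by
          have : (k : ℝ) ≤ 2 * c₁ * y := by linarith
          gcongr
      _ = 4 * c₁ * L := by rw [hL]; ring
  have hcard : (W.card : ℝ) ≤ ((range b ×ˢ F ×ˢ Icc (-(B : ℤ)) (B + 1)).card : ℝ) * (4 * c₁ * L) := by
    rw [Finset.card_eq_sum_card_fiberwise (f := φ) (t := range b ×ˢ F ×ˢ Icc (-(B : ℤ)) (B + 1)) hmaps]
    push_cast
    refine (Finset.sum_le_sum hfib).trans (le_of_eq ?_)
    rw [Finset.sum_const, nsmul_eq_mul]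
  have hcT : ((range b ×ˢ F ×ˢ Icc (-(B : ℤ)) (B + 1)).card : ℝ) ≤ B * (κ * x) * (2 * B + 2) := by
    rw [Finset.card_product, Finset.card_product, Finset.card_range, Int.card_Icc]
    push_cast
    have h1 : (((B : ℤ) + 1 + 1 - -(B : ℤ)).toNat : ℝ) = 2 * B + 2 := by
      have : ((B : ℤ) + 1 + 1 - -(B : ℤ)).toNat = 2 * B + 2 := by omega
      rw [this]
      push_cast
      ring
    rw [h1]
    have h2 : (b : ℝ) ≤ B := by exact_mod_cast hbB
    have h3 : (F.card : ℝ) ≤ κ * x := hFc.trans (mul_le_mul_of_nonneg_right hηx.le hx0.le)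
    have h4 : (b : ℝ) * (F.card * (2 * B + 2)) ≤ B * ((κ * x) * (2 * B + 2)) := by gcongr
    linarith
  have hfin : c * L ≤ B * (κ * x) * (2 * B + 2) * (4 * c₁ * L) := by
    have h1 : c * L ≤ (W.card : ℝ) := by
      rw [hL, ← mul_div_assoc]
      exact hWc
    exact h1.trans (hcard.trans (mul_le_mul_of_nonneg_right hcT (by positivity)))
  have hval : (B : ℝ) * (κ * x) * (2 * B + 2) * (4 * c₁ * L) = c * L * (B / (2 * (B + 1))) := by
    rw [hκ, hc₁]
    field_simp
    ring
  rw [hval] at hfin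
  have h1 : (B : ℝ) / (2 * (B + 1)) < 1 := by
    rw [div_lt_one (by positivity)]
    linarith
  have h2 : 0 < c * L := by positivity
  nlinarith

end Pool.Agent.U307.NF
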