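import Pool.Agent.U307.NF.A

/-! From sums with the von Mangoldt function to sums over primes in a dyadic block. -/

set_option autoImplicit false

namespace Pool.Agent.U307.NF

open Finset Filter Topology
open Pool.Agent.H807R2.Dav (ee norm_ee ee_add ee_int ee_zero ee_add_int)
open Pool.Agent.U237.NF.Lite
open ArithmeticFunction (vonMangoldt)

/-- the prime powers -/
lemma prime_powers (c : ℝ) (hc : 0 < c) : ∃ y0 : ℕ, 2 ≤ y0 ∧ ∀ y : ℕ, y0 ≤ y → ∀ u N : ℕ, N ≤ 2 * y →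
    ∀ α : ℝ, ‖∑ n ∈ (Ioc u N).filter (fun n => ¬ n.Prime), ((vonMangoldt n : ℝ) : ℂ) *
      ee ((n : ℝ) * α)‖ ≤ c * y := by
  obtain ⟨C, hC⟩ := Chebyshev.psi_sub_theta_le_mul_sqrt
  refine ⟨max 2 ⌈(2 * |C| / c) ^ 2⌉₊, le_max_left _ _, fun y hy u N hN α => ?_⟩
  have h1 : (2 * |C| / c) ^ 2 ≤ (y : ℝ) :=
    (Nat.le_ceil _).trans (by exact_mod_cast (le_max_right _ _).trans hy)
  have h2 : 2 ≤ y := (le_max_left _ _).trans hy
  have hy0 : (0 : ℝ) < y := by exact_mod_cast (by omega : 0 < y)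
  set s : ℝ := Real.sqrt ((2 * y : ℕ) : ℝ) with hs
  have hs2 : s ^ 2 = 2 * y := by
    rw [hs, Real.sq_sqrt (by positivity)]
    push_cast
    ring
  have hs0 : 0 ≤ s := Real.sqrt_nonneg _
  have h3 : 2 * |C| / c ≤ s := by
    rw [hs]
    refine Real.le_sqrt_of_sq_le ?_
    push_cast
    linarith
  have h4 : |C| * s ≤ c * y := by
    have h5 : 2 * |C| ≤ c * s := by
      rw [div_le_iff₀ hc] at h3
      linarith
    nlinarith
  have h6 := hC ((2 * y : ℕ) : ℝ)
  rw [Chebyshev.psi_sub_theta_eq_sum_not_prime, Nat.floor_natCast] at h6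
  calc ‖∑ n ∈ (Ioc u N).filter (fun n => ¬ n.Prime), ((vonMangoldt n : ℝ) : ℂ) * ee ((n : ℝ) * α)‖
      ≤ ∑ n ∈ (Ioc u N).filter (fun n => ¬ n.Prime), vonMangoldt n := by
        refine (norm_sum_le _ _).trans (le_of_eq (Finset.sum_congr rfl fun n _ => ?_))
        rw [norm_mul, norm_ee, mul_one, Complex.norm_real, Real.norm_eq_abs,
          abs_of_nonneg ArithmeticFunction.vonMangoldt_nonneg]
    _ ≤ ∑ n ∈ (Ioc 0 (2 * y)).filter (fun n => ¬ n.Prime), vonMangoldt n := by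
        refine Finset.sum_le_sum_of_subset_of_nonneg ?_ fun _ _ _ =>
          ArithmeticFunction.vonMangoldt_nonneg
        intro n hn
        rw [Finset.mem_filter, Finset.mem_Ioc] at hn ⊢
        exact ⟨⟨by omega, by omega⟩, hn.2⟩
    _ ≤ C * s := h6
    _ ≤ |C| * s := mul_le_mul_of_nonneg_right (le_abs_self C) hs0
    _ ≤ c * y := h4

lemma Ioc_eq_Ico (a b : ℕ) : Ioc a b = Ico (a + 1) (b + 1) := by
  ext n
  simp only [Finset.mem_Ioc, Finset.mem_Ico]
  omega

/-- small sums with the von Mangoldt function give small sums over primes -/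
lemma prime_sum_le (c : ℝ) (hc : 0 < c) : ∃ y0 : ℕ, 2 ≤ y0 ∧ ∀ y : ℕ, y0 ≤ y → ∀ α : ℝ,
    (∀ N : ℕ, y ≤ N → N ≤ 2 * y →
      ‖∑ n ∈ Icc 1 N, ((vonMangoldt n : ℝ) : ℂ) * ee ((n : ℝ) * α)‖ ≤ c * N) →
    ‖∑ p ∈ PB y, ee ((p : ℝ) * α)‖ ≤ 4 * c * (y / Real.log y) := by
  obtain ⟨y0, h2, hpp⟩ := prime_powers c hc
  refine ⟨y0, h2, fun y hy α hα => ?_⟩
  have hy2 : 2 ≤ y := h2.trans hy
  have hy0 : (0 : ℝ) < y := by exact_mod_cast (by omega : 0 < y)
  have hlog : 0 < Real.log y := Real.log_pos (by exact_mod_cast (by omega : 1 < y))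
  let f : ℕ → ℂ := fun n => if n.Prime then ((Real.log n : ℝ) : ℂ) * ee ((n : ℝ) * α) else 0
  let W : ℕ → ℝ := fun i => 1 / Real.log ((y + 1 + i : ℕ) : ℝ)
  have hlogi : ∀ i : ℕ, Real.log y ≤ Real.log ((y + 1 + i : ℕ) : ℝ) := fun i =>
    Real.log_le_log hy0 (by exact_mod_cast (by omega : y ≤ y + 1 + i))
  have hWanti : Antitone W := by
    intro i j hij
    refine one_div_le_one_div_of_le (hlog.trans_le (hlogi i)) ?_
    exact Real.log_le_log (by positivity) (by exact_mod_cast (by omega : y + 1 + i ≤ y + 1 + j))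
  have hW0 : ∀ i, 0 ≤ W i := fun i => one_div_nonneg.2 (hlog.trans_le (hlogi i)).le
  -- the sum over the primes
  have hS : ∑ p ∈ PB y, ee ((p : ℝ) * α) = ∑ i ∈ range y, (W i : ℂ) * f (y + 1 + i) := by
    unfold PB
    rw [Finset.sum_filter, Ioc_eq_Ico, Finset.sum_Ico_eq_sum_range,
      show 2 * y + 1 - (y + 1) = y by omega]
    refine Finset.sum_congr rfl fun i _ => ?_
    by_cases hp : (y + 1 + i).Prime
    · simp only [f, if_pos hp, W]
      rw [← mul_assoc, ← Complex.ofReal_mul, one_div, inv_mul_cancel₀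
        (hlog.trans_le (hlogi i)).ne', Complex.ofReal_one, one_mul]
    · simp only [f, if_neg hp, mul_zero]
  -- the partial sums
  have hpart : ∀ i ≤ y, ‖∑ j ∈ range i, f (y + 1 + j)‖ ≤ 4 * c * y := by
    intro i hi
    have h3 : ∑ j ∈ range i, f (y + 1 + j) = ∑ n ∈ Ioc y (y + i), f n := by
      rw [Ioc_eq_Ico, Finset.sum_Ico_eq_sum_range, show y + i + 1 - (y + 1) = i by omega]
    have h4 : ∑ n ∈ Ioc y (y + i), f n =
        ∑ n ∈ Icc 1 (y + i), ((vonMangoldt n : ℝ) : ℂ) * ee ((n : ℝ) * α) -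
        ∑ n ∈ Icc 1 y, ((vonMangoldt n : ℝ) : ℂ) * ee ((n : ℝ) * α) -
        ∑ n ∈ (Ioc y (y + i)).filter (fun n => ¬ n.Prime), ((vonMangoldt n : ℝ) : ℂ) *
          ee ((n : ℝ) * α) := by
      have h5 : ∑ n ∈ Icc 1 (y + i), ((vonMangoldt n : ℝ) : ℂ) * ee ((n : ℝ) * α) =
          ∑ n ∈ Icc 1 y, ((vonMangoldt n : ℝ) : ℂ) * ee ((n : ℝ) * α) +
          ∑ n ∈ Ioc y (y + i), ((vonMangoldt n : ℝ) : ℂ) * ee ((n : ℝ) * α) := by
        have h6 : Icc 1 (y + i) = Icc 1 y ∪ Ioc y (y + i) := by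
          ext n
          simp only [Finset.mem_Icc, Finset.mem_union, Finset.mem_Ioc]
          omega
        rw [h6, Finset.sum_union]
        rw [Finset.disjoint_left]
        intro n hn hn2
        rw [Finset.mem_Icc] at hn
        rw [Finset.mem_Ioc] at hn2
        omega
      rw [h5, add_sub_cancel_left, Finset.sum_filter, ← Finset.sum_sub_distrib]
      refine Finset.sum_congr rfl fun n _ => ?_
      by_cases hp : n.Prime
      · simp only [f, if_pos hp, hp, not_true_eq_false, if_false, sub_zero]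
        rw [ArithmeticFunction.vonMangoldt_apply_prime hp]
      · simp only [f, if_neg hp, hp, not_false_eq_true, if_true, sub_self]
    rw [h3, h4]
    have h7 := hα (y + i) (by omega) (by omega)
    have h8 := hα y le_rfl (by omega)
    have h9 := hpp y hy y (y + i) (by omega) α
    have h10 : c * ((y + i : ℕ) : ℝ) ≤ 2 * c * y := by
      have : ((y + i : ℕ) : ℝ) ≤ 2 * y := by exact_mod_cast (by omega : y + i ≤ 2 * y)
      nlinarith
    calc _ ≤ (c * ((y + i : ℕ) : ℝ) + c * y) + c * y := by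
          refine (norm_sub_le _ _).trans (add_le_add ((norm_sub_le _ _).trans (add_le_add h7 h8)) h9)
      _ ≤ _ := by linarith
  rw [hS]
  refine (abel_bound (fun i => f (y + 1 + i)) W y (4 * c * y) hWanti hW0 hpart).trans ?_
  have h11 : W 0 ≤ 1 / Real.log y := one_div_le_one_div_of_le hlog (hlogi 0)
  calc W 0 * (4 * c * y) ≤ 1 / Real.log y * (4 * c * y) := by gcongr
    _ = 4 * c * (y / Real.log y) := by ring

end Pool.Agent.U307.NF
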