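import Pool.Agent.U237.NF.Lite

/-! Tools for the packages L1, L2 of the project NF. -/

set_option autoImplicit false

namespace Pool.Agent.U307.NF

open Finset Filter Topology
open Pool.Agent.H807R2.Dav (ee norm_ee ee_add ee_int ee_zero ee_add_int)
open Pool.Agent.U237.NF.Lite

/-- primes in long intervals, upper bound -/
lemma prime_count (c₁ : ℝ) (hc : 0 < c₁) : ∃ y0 : ℕ, 2 ≤ y0 ∧ ∀ y : ℕ, y0 ≤ y → ∀ u k : ℕ, y ≤ u →
    u ≤ 2 * y → c₁ * y ≤ k → k ≤ y →
    (((Ioc u (u + k)).filter Nat.Prime).card : ℝ) ≤ 2 * (k / Real.log y) := by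
  obtain ⟨x₀, hx⟩ := Pool.Agent.TH423.SH.pai 1 le_rfl 1 c₁ one_pos hc
  refine ⟨max 2 ⌈x₀⌉₊, le_max_left _ _, fun y hy u k hu hu2 hk hky => ?_⟩
  have h1 : x₀ ≤ (y : ℝ) := (Nat.le_ceil x₀).trans (by exact_mod_cast (le_max_right _ _).trans hy)
  have h2 : 2 ≤ y := (le_max_left _ _).trans hy
  have hy1 : (1 : ℝ) < y := by exact_mod_cast (by omega : 1 < y)
  have hlog : 0 < Real.log y := Real.log_pos hy1
  have hu' : (y : ℝ) ≤ u := by exact_mod_cast hu
  have hv' : ((u + k : ℕ) : ℝ) ≤ 3 * y := by exact_mod_cast (by omega : u + k ≤ 3 * y)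
  have h3 := hx y h1 u (u + k) 0 (by linarith) hv' (by push_cast; linarith) (Nat.coprime_one_right 0)
  have h4 : (Ioc u (u + k)).filter (fun q => q.Prime ∧ q % 1 = 0 % 1) =
      (Ioc u (u + k)).filter Nat.Prime := by
    ext q
    simp [Nat.mod_one]
  rw [h4, Nat.totient_one] at h3
  have h5 := (abs_le.1 h3).2
  push_cast at h5
  have h6 : ((u : ℝ) + k - u) / (1 * Real.log y) = k / Real.log y := by
    rw [one_mul]; ring_nf
  rw [h6] at h5
  linarith

lemma PB_card : ∃ y0 : ℕ, 2 ≤ y0 ∧ ∀ y : ℕ, y0 ≤ y → ((PB y).card : ℝ) ≤ 2 * (y / Real.log y) := by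
  obtain ⟨y0, h2, h⟩ := prime_count (1 / 2) (by norm_num)
  refine ⟨y0, h2, fun y hy => ?_⟩
  have h3 := h y hy y y le_rfl (by omega) (by have : (0 : ℝ) ≤ y := by positivity
                                              linarith) le_rfl
  rw [← two_mul] at h3
  exact h3

lemma conj_ee (x : ℝ) : (starRingEnd ℂ) (ee x) = ee (-x) := by
  unfold ee
  rw [← Complex.exp_conj]
  congr 1
  simp only [map_mul, Complex.conj_ofReal, Complex.conj_I, map_ofNat]
  push_cast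
  ring

/-- real part of `ee` for small arguments -/
lemma re_ee_ge {x : ℝ} (hx : |x| ≤ 1 / 8) : 1 / 2 ≤ (ee x).re := by
  rw [Pool.Agent.H807R2.Dav.ee_eq, Complex.exp_ofReal_mul_I_re]
  have h1 := Real.one_sub_sq_div_two_le_cos (x := 2 * Real.pi * x)
  have h2 : |2 * Real.pi * x| ≤ 1 := by
    rw [abs_mul, abs_of_pos (by positivity)]
    have := Real.pi_le_four
    have h3 : 2 * Real.pi * |x| ≤ 2 * 4 * (1 / 8) := by gcongr
    linarith
  have h4 : (2 * Real.pi * x) ^ 2 ≤ 1 := by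
    rw [← sq_abs]
    nlinarith [abs_nonneg (2 * Real.pi * x)]
  linarith

/-- the kernel -/
noncomputable def Kr (J : ℕ) (t : ℝ) : ℝ := ‖∑ j ∈ range J, ee ((j : ℝ) * t)‖ ^ 2

lemma Kr_nonneg (J : ℕ) (t : ℝ) : 0 ≤ Kr J t := by unfold Kr; positivity

lemma Kr_add_int (J : ℕ) (t : ℝ) (m : ℤ) : Kr J (t + m) = Kr J t := by
  unfold Kr
  congr 2
  refine Finset.sum_congr rfl fun j _ => ?_
  have : (j : ℝ) * (t + m) = j * t + ((j * m : ℤ) : ℝ) := by push_cast; ring
  rw [this, ee_add_int]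

lemma Kr_ge (J : ℕ) (hJ : 1 ≤ J) {t : ℝ} (ht : |t| ≤ 1 / (8 * J)) : (J : ℝ) ^ 2 / 4 ≤ Kr J t := by
  have hJ' : (0 : ℝ) < J := by exact_mod_cast hJ
  have h1 : (J : ℝ) / 2 ≤ ‖∑ j ∈ range J, ee ((j : ℝ) * t)‖ := by
    refine le_trans ?_ (Complex.re_le_norm _)
    rw [Complex.re_sum]
    have h2 : ∑ j ∈ range J, (1 / 2 : ℝ) ≤ ∑ j ∈ range J, (ee ((j : ℝ) * t)).re := by
      refine Finset.sum_le_sum fun j hj => re_ee_ge ?_
      have hj' : (j : ℝ) ≤ J := by exact_mod_cast (Finset.mem_range.1 hj).le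
      rw [abs_mul, abs_of_nonneg (by positivity)]
      calc (j : ℝ) * |t| ≤ J * (1 / (8 * J)) := by gcongr
        _ = 1 / 8 := by field_simp
    rw [Finset.sum_const, Finset.card_range, nsmul_eq_mul] at h2
    linarith
  unfold Kr
  have h3 : ((J : ℝ) / 2) ^ 2 ≤ ‖∑ j ∈ range J, ee ((j : ℝ) * t)‖ ^ 2 := by gcongr
  calc (J : ℝ) ^ 2 / 4 = (J / 2) ^ 2 := by ring
    _ ≤ _ := h3

/-- sum of the kernel over a set of integers -/
lemma ker_sum (P : Finset ℕ) (β v : ℝ) (J : ℕ) (D : ℝ) (hD0 : 0 ≤ D)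
    (hD : ∀ m : ℕ, 1 ≤ m → m < J → ‖∑ p ∈ P, ee ((m : ℝ) * ((p : ℝ) * β))‖ ≤ D) :
    ∑ p ∈ P, Kr J ((p : ℝ) * β - v) ≤ J * P.card + J ^ 2 * D := by
  have key : ((∑ p ∈ P, Kr J ((p : ℝ) * β - v) : ℝ) : ℂ) =
      ∑ j ∈ range J, ∑ k ∈ range J, ee (((k : ℝ) - j) * v) *
        ∑ p ∈ P, ee (((j : ℝ) - k) * ((p : ℝ) * β)) := by
    have h1 : ∀ p ∈ P, ((Kr J ((p : ℝ) * β - v) : ℝ) : ℂ) =
        ∑ j ∈ range J, ∑ k ∈ range J, ee (((k : ℝ) - j) * v) * ee (((j : ℝ) - k) * ((p : ℝ) * β)) := by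
      intro p _
      unfold Kr
      push_cast
      rw [← Complex.mul_conj', map_sum, Finset.sum_mul_sum]
      refine Finset.sum_congr rfl fun j _ => Finset.sum_congr rfl fun k _ => ?_
      rw [conj_ee, ← ee_add, ← ee_add]
      congr 1
      ring
    rw [Complex.ofReal_sum, Finset.sum_congr rfl h1, Finset.sum_comm]
    refine Finset.sum_congr rfl fun j _ => ?_
    rw [Finset.sum_comm]
    refine Finset.sum_congr rfl fun k _ => ?_
    rw [Finset.mul_sum]
  have h0 : 0 ≤ ∑ p ∈ P, Kr J ((p : ℝ) * β - v) := Finset.sum_nonneg fun p _ => Kr_nonneg _ _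
  have h2 : ∑ p ∈ P, Kr J ((p : ℝ) * β - v) =
      ‖((∑ p ∈ P, Kr J ((p : ℝ) * β - v) : ℝ) : ℂ)‖ := by
    rw [Complex.norm_real, Real.norm_eq_abs, abs_of_nonneg h0]
  rw [h2, key]
  have h3 : ∀ j ∈ range J, ∀ k ∈ range J, ‖ee (((k : ℝ) - j) * v) *
      ∑ p ∈ P, ee (((j : ℝ) - k) * ((p : ℝ) * β))‖ ≤ (if j = k then (P.card : ℝ) else 0) + D := by
    intro j hj k hk
    rw [norm_mul, norm_ee, one_mul]
    rcases lt_trichotomy j k with h | h | h
    · rw [if_neg h.ne, zero_add]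
      have h4 := hD (k - j) (by omega) (by have := Finset.mem_range.1 hk; omega)
      have h5 : ∑ p ∈ P, ee (((j : ℝ) - k) * ((p : ℝ) * β)) =
          (starRingEnd ℂ) (∑ p ∈ P, ee (((k - j : ℕ) : ℝ) * ((p : ℝ) * β))) := by
        rw [map_sum]
        refine Finset.sum_congr rfl fun p _ => ?_
        rw [conj_ee, Nat.cast_sub h.le]
        congr 1
        ring
      rw [h5, RCLike.norm_conj]
      exact h4
    · subst h
      rw [if_pos rfl]
      have h4 : ‖∑ p ∈ P, ee (((j : ℝ) - j) * ((p : ℝ) * β))‖ ≤ P.card := by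
        refine (norm_sum_le _ _).trans ?_
        simp [norm_ee]
      linarith
    · rw [if_neg h.ne', zero_add]
      have h4 := hD (j - k) (by omega) (by have := Finset.mem_range.1 hj; omega)
      rw [Nat.cast_sub h.le] at h4
      exact h4
  calc ‖∑ j ∈ range J, ∑ k ∈ range J, ee (((k : ℝ) - j) * v) *
        ∑ p ∈ P, ee (((j : ℝ) - k) * ((p : ℝ) * β))‖
      ≤ ∑ j ∈ range J, ∑ k ∈ range J, ((if j = k then (P.card : ℝ) else 0) + D) := by
        refine (norm_sum_le _ _).trans (Finset.sum_le_sum fun j hj => ?_)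
        exact (norm_sum_le _ _).trans (Finset.sum_le_sum fun k hk => h3 j hj k hk)
    _ = ∑ j ∈ range J, ((P.card : ℝ) + J * D) := by
        refine Finset.sum_congr rfl fun j hj => ?_
        rw [Finset.sum_add_distrib, Finset.sum_ite_eq, if_pos hj, Finset.sum_const,
          Finset.card_range, nsmul_eq_mul]
    _ = J * P.card + J ^ 2 * D := by
        rw [Finset.sum_const, Finset.card_range, nsmul_eq_mul]
        ring

/-- partial summation with a decreasing weight -/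
lemma abel_bound (b : ℕ → ℂ) (W : ℕ → ℝ) (m : ℕ) (D : ℝ) (hW : Antitone W) (hW0 : ∀ i, 0 ≤ W i)
    (hD : ∀ i ≤ m, ‖∑ j ∈ range i, b j‖ ≤ D) : ‖∑ i ∈ range m, (W i : ℂ) * b i‖ ≤ W 0 * D := by
  have key : ∀ n : ℕ, ∑ i ∈ range n, (W i : ℂ) * b i = (W n : ℂ) * ∑ j ∈ range n, b j +
      ∑ i ∈ range n, ((W i - W (i + 1) : ℝ) : ℂ) * ∑ j ∈ range (i + 1), b j := by
    intro n
    induction n with
    | zero => simp
    | succ n ih =>
      rw [Finset.sum_range_succ, ih, Finset.sum_range_succ (fun i => ((W i - W (i + 1) : ℝ) : ℂ) *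
        ∑ j ∈ range (i + 1), b j), Finset.sum_range_succ b]
      push_cast
      ring
  rw [key m]
  calc ‖(W m : ℂ) * ∑ j ∈ range m, b j +
      ∑ i ∈ range m, ((W i - W (i + 1) : ℝ) : ℂ) * ∑ j ∈ range (i + 1), b j‖
      ≤ W m * D + ∑ i ∈ range m, (W i - W (i + 1)) * D := by
        refine (norm_add_le _ _).trans (add_le_add ?_ ?_)
        · rw [norm_mul, Complex.norm_real, Real.norm_eq_abs, abs_of_nonneg (hW0 m)]
          exact mul_le_mul_of_nonneg_left (hD m le_rfl) (hW0 m)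
        · refine (norm_sum_le _ _).trans (Finset.sum_le_sum fun i hi => ?_)
          have h1 : 0 ≤ W i - W (i + 1) := by linarith [hW (Nat.le_succ i)]
          rw [norm_mul, Complex.norm_real, Real.norm_eq_abs, abs_of_nonneg h1]
          exact mul_le_mul_of_nonneg_left (hD (i + 1) (Finset.mem_range.1 hi)) h1
    _ = W 0 * D := by
        rw [← Finset.sum_mul, Finset.sum_range_sub']
        ring

end Pool.Agent.U307.NF
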